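import Mathlib
import Pool.Agent.Helper65.SL.Base

/-!
# Project SL (MP_1eb6eb_gt), module JAC: second derivative test for a determinant
-/

set_option maxSynthPendingDepth 3
set_option linter.unusedSectionVars false
set_option linter.deprecated false
set_option linter.unusedVariables false

namespace Pool.Agent.Helper60.SL

open Filter Topology
open scoped ContDiff Manifold
open Pool.Agent.Helper65.SL Pool.Agent.Helper23.Ric

variable {V W : Type*} [NormedAddCommGroup V] [NormedSpace ℝ V] [FiniteDimensional ℝ V]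
  [NormedAddCommGroup W] [NormedSpace ℝ W] [FiniteDimensional ℝ W]

variable {G : V × W → (V × W) →L[ℝ] (V × W) →L[ℝ] ℝ} {w₀ : V} {z₀ : W}

/-- Jacobi's formula -/
theorem hasDerivAt_det {m : ℕ} {H : ℝ → Matrix (Fin m) (Fin m) ℝ}
    {H' : Matrix (Fin m) (Fin m) ℝ} {t : ℝ}
    (h : ∀ i j, HasDerivAt (fun s => H s i j) (H' i j) t) :
    HasDerivAt (fun s => (H s).det) ((H t).adjugate * H').trace t := by
  have e1 : (fun s => (H s).det) = fun s => ∑ σ : Equiv.Perm (Fin m),
      ((Equiv.Perm.sign σ : ℤ) : ℝ) * ∏ i, H s (σ i) i := by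
    funext s
    rw [Matrix.det_apply']
  rw [e1]
  have h1 : HasDerivAt (fun s => ∑ σ : Equiv.Perm (Fin m),
      ((Equiv.Perm.sign σ : ℤ) : ℝ) * ∏ i, H s (σ i) i)
      (∑ σ : Equiv.Perm (Fin m), ((Equiv.Perm.sign σ : ℤ) : ℝ) *
        ∑ i, (∏ j ∈ Finset.univ.erase i, H t (σ j) j) • H' (σ i) i) t :=
    HasDerivAt.fun_sum fun σ _ =>
      (HasDerivAt.fun_finsetProd (fun i _ => h (σ i) i)).const_mul _
  have e2 : ((H t).adjugate * H').trace = ∑ σ : Equiv.Perm (Fin m),
      ((Equiv.Perm.sign σ : ℤ) : ℝ) *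
        ∑ i, (∏ j ∈ Finset.univ.erase i, H t (σ j) j) • H' (σ i) i := by
    have e3 : ∀ i, ((H t).adjugate * H') i i = ∑ σ : Equiv.Perm (Fin m),
        ((Equiv.Perm.sign σ : ℤ) : ℝ) *
          ((∏ j ∈ Finset.univ.erase i, H t (σ j) j) • H' (σ i) i) := by
      intro i
      have e4 : ((H t).adjugate * H') i i = Matrix.cramer (H t) (fun k => H' k i) i := by
        rw [Matrix.cramer_eq_adjugate_mulVec]
        rfl
      rw [e4, Matrix.cramer_apply, Matrix.det_apply']
      apply Finset.sum_congr rfl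
      intro σ _
      congr 1
      rw [← Finset.mul_prod_erase Finset.univ _ (Finset.mem_univ i), Matrix.updateCol_self,
        smul_eq_mul, mul_comm]
      congr 1
      apply Finset.prod_congr rfl
      intro j hj
      rw [Matrix.updateCol_ne (Finset.ne_of_mem_erase hj)]
    rw [Matrix.trace]
    simp only [Matrix.diag_apply]
    rw [Finset.sum_congr rfl fun i _ => e3 i, Finset.sum_comm]
    apply Finset.sum_congr rfl
    intro σ _
    rw [Finset.mul_sum]
  rw [e2]
  exact h1

theorem second_nonneg {f : ℝ → ℝ} {x : ℝ} (hf : IsLocalMin f x) (hc : ContinuousAt f x) :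
    0 ≤ deriv (deriv f) x := by
  by_contra hneg
  rw [not_le] at hneg
  have hmax := isLocalMax_of_deriv_deriv_neg hneg hf.deriv_eq_zero hc
  have h1 : f =ᶠ[𝓝 x] fun _ => f x := by
    filter_upwards [hf, hmax] with y h1 h2
    exact le_antisymm h2 h1
  have h2 : deriv f =ᶠ[𝓝 x] fun _ => (0 : ℝ) := by
    have := h1.deriv
    simpa using this
  have h3 : deriv (deriv f) x = 0 := by
    rw [h2.deriv_eq]
    simp
  rw [h3] at hneg
  exact lt_irrefl _ hneg

theorem jac {m : ℕ} {F : V → Matrix (Fin m) (Fin m) ℝ}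
    (hF : ∀ i j, ContDiffAt ℝ 2 (fun w => F w i j) w₀) (h1 : F w₀ = 1)
    (hmin : IsLocalMin (fun w => (F w).det) w₀) (u : V) :
    ∑ i, fderiv ℝ (fun w => F w i i) w₀ u = 0 ∧
      ∑ i, ∑ j, fderiv ℝ (fun w => F w i j) w₀ u * fderiv ℝ (fun w => F w j i) w₀ u ≤
        ∑ i, fderiv ℝ (fderiv ℝ (fun w => F w i i)) w₀ u u := by
  -- the line
  have hline : ∀ t : ℝ, HasDerivAt (fun s : ℝ => w₀ + s • u) u t := by
    intro t
    have := ((hasDerivAt_id t).smul_const u).const_add w₀
    simpa using this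
  have hl0 : w₀ + (0 : ℝ) • u = w₀ := by simp
  have htend : Tendsto (fun s : ℝ => w₀ + s • u) (𝓝 0) (𝓝 w₀) := by
    have := (hline 0).continuousAt.tendsto
    rwa [hl0] at this
  let H : ℝ → Matrix (Fin m) (Fin m) ℝ := fun t => F (w₀ + t • u)
  let D : ℝ → Matrix (Fin m) (Fin m) ℝ := fun t i j =>
    fderiv ℝ (fun w => F w i j) (w₀ + t • u) u
  let A : Matrix (Fin m) (Fin m) ℝ := fun i j => fderiv ℝ (fun w => F w i j) w₀ u
  let B : Matrix (Fin m) (Fin m) ℝ := fun i j =>
    fderiv ℝ (fderiv ℝ (fun w => F w i j)) w₀ u u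
  have hH0 : H 0 = 1 := by
    change F (w₀ + (0 : ℝ) • u) = 1
    rw [hl0, h1]
  have hD0 : D 0 = A := by
    funext i j
    change fderiv ℝ (fun w => F w i j) (w₀ + (0 : ℝ) • u) u = _
    rw [hl0]
  have hHD : ∀ᶠ t in 𝓝 (0 : ℝ), ∀ i j, HasDerivAt (fun s => H s i j) (D t i j) t := by
    have h2 : ∀ᶠ w in 𝓝 w₀, ∀ i j, DifferentiableAt ℝ (fun w => F w i j) w := by
      rw [eventually_all]
      intro i
      rw [eventually_all]
      intro j
      have h3 := (hF i j).eventually (by simp)
      filter_upwards [h3] with w hw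
      exact hw.differentiableAt (by norm_num)
    filter_upwards [htend.eventually h2] with t ht i j
    exact (ht i j).hasFDerivAt.comp_hasDerivAt t (hline t)
  have hHD0 : ∀ i j, HasDerivAt (fun s => H s i j) (A i j) 0 := by
    intro i j
    have := hHD.self_of_nhds i j
    rwa [hD0] at this
  have hDB : ∀ i j, HasDerivAt (fun s => D s i j) (B i j) 0 := by
    intro i j
    have h2 : ContDiffAt ℝ 1 (fderiv ℝ (fun w => F w i j)) w₀ :=
      (hF i j).fderiv_right (by norm_num)
    have h3 : DifferentiableAt ℝ (fderiv ℝ (fun w => F w i j)) w₀ :=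
      h2.differentiableAt (by norm_num)
    have h4 : HasFDerivAt (fderiv ℝ (fun w => F w i j))
        (fderiv ℝ (fderiv ℝ (fun w => F w i j)) w₀) (w₀ + (0 : ℝ) • u) := by
      rw [hl0]
      exact h3.hasFDerivAt
    have h5 := h4.comp_hasDerivAt (0 : ℝ) (hline 0)
    have h6 := h5.clm_apply (hasDerivAt_const (0 : ℝ) u)
    simpa using h6
  -- the determinant along the line
  let δ : ℝ → ℝ := fun t => (H t).det
  have hδ : ∀ᶠ t in 𝓝 (0 : ℝ), HasDerivAt δ ((H t).adjugate * D t).trace t := by
    filter_upwards [hHD] with t ht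
    exact hasDerivAt_det ht
  have hδmin : IsLocalMin δ 0 := by
    have h2 := htend.eventually hmin
    have h3 : δ 0 = (F w₀).det := by
      change (F (w₀ + (0 : ℝ) • u)).det = _
      rw [hl0]
    filter_upwards [h2] with t ht
    rw [h3]
    exact ht
  have hδ0 := hδ.self_of_nhds
  have htr : A.trace = 0 := by
    have h2 := hδmin.hasDerivAt_eq_zero hδ0
    rw [hH0, hD0, Matrix.adjugate_one, Matrix.one_mul] at h2
    exact h2
  -- the adjugate
  have hK : ∀ i j, ∃ k : ℝ, HasDerivAt (fun s => (H s).adjugate i j) k 0 := by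
    intro i j
    have e1 : (fun s => (H s).adjugate i j) =
        fun s => ((H s).updateRow j (Pi.single i 1)).det := by
      funext s
      rw [Matrix.adjugate_apply]
    have h2 : ∀ a b, ∃ k : ℝ,
        HasDerivAt (fun s => (H s).updateRow j (Pi.single i 1) a b) k 0 := by
      intro a b
      by_cases ha : a = j
      · refine ⟨0, ?_⟩
        have : (fun s => (H s).updateRow j (Pi.single i 1) a b) =
            fun _ => (Pi.single i (1 : ℝ) : Fin m → ℝ) b := by
          funext s
          rw [ha, Matrix.updateRow_self]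
        rw [this]
        exact hasDerivAt_const _ _
      · refine ⟨A a b, ?_⟩
        have : (fun s => (H s).updateRow j (Pi.single i 1) a b) = fun s => H s a b := by
          funext s
          rw [Matrix.updateRow_ne ha]
        rw [this]
        exact hHD0 a b
    choose k hk using h2
    rw [e1]
    exact ⟨_, hasDerivAt_det (H' := k) hk⟩
  choose K' hK' using hK
  have hrel : ∀ i j, K' i j = - A i j := by
    intro i j
    have e1 : (fun s => ∑ k, (H s).adjugate i k * H s k j) =
        fun s => δ s * (1 : Matrix (Fin m) (Fin m) ℝ) i j := by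
      funext s
      have := congrFun (congrFun (Matrix.adjugate_mul (H s)) i) j
      rw [Matrix.mul_apply] at this
      exact this
    have h2 : HasDerivAt (fun s => ∑ k, (H s).adjugate i k * H s k j)
        (∑ k, (K' i k * H 0 k j + (H 0).adjugate i k * A k j)) 0 :=
      HasDerivAt.fun_sum fun k _ => (hK' i k).mul (hHD0 k j)
    have h3 : HasDerivAt (fun s => δ s * (1 : Matrix (Fin m) (Fin m) ℝ) i j)
        (((H 0).adjugate * D 0).trace * (1 : Matrix (Fin m) (Fin m) ℝ) i j) 0 :=
      hδ0.mul_const _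
    rw [e1] at h2
    have h4 := h2.unique h3
    rw [hH0, hD0, Matrix.adjugate_one, Matrix.one_mul, htr, zero_mul] at h4
    rw [Finset.sum_add_distrib] at h4
    have h5 : ∑ k, K' i k * (1 : Matrix (Fin m) (Fin m) ℝ) k j = K' i j := by
      simp [Matrix.one_apply]
    have h6 : ∑ k, (1 : Matrix (Fin m) (Fin m) ℝ) i k * A k j = A i j := by
      simp [Matrix.one_apply]
    rw [h5, h6] at h4
    linarith
  -- the second derivative
  have hg : HasDerivAt (fun t => ((H t).adjugate * D t).trace)
      (∑ i, ∑ k, (K' i k * D 0 k i + (H 0).adjugate i k * B k i)) 0 := by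
    have e1 : (fun t => ((H t).adjugate * D t).trace) =
        fun t => ∑ i, ∑ k, (H t).adjugate i k * D t k i := by
      funext t
      rfl
    rw [e1]
    exact HasDerivAt.fun_sum fun i _ => HasDerivAt.fun_sum fun k _ => (hK' i k).mul (hDB k i)
  have hdd : deriv (deriv δ) 0 =
      ∑ i, ∑ k, (K' i k * D 0 k i + (H 0).adjugate i k * B k i) := by
    have h2 : deriv δ =ᶠ[𝓝 0] fun t => ((H t).adjugate * D t).trace := by
      filter_upwards [hδ] with t ht
      exact ht.deriv
    rw [h2.deriv_eq, hg.deriv]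
  have hnn := second_nonneg hδmin hδ0.continuousAt
  rw [hdd, hH0, hD0, Matrix.adjugate_one] at hnn
  refine ⟨htr, ?_⟩
  have e5 : ∑ i, ∑ k, (K' i k * A k i + (1 : Matrix (Fin m) (Fin m) ℝ) i k * B k i) =
      - (∑ i, ∑ k, A i k * A k i) + ∑ i, B i i := by
    rw [← Finset.sum_neg_distrib, ← Finset.sum_add_distrib]
    apply Finset.sum_congr rfl
    intro i _
    rw [Finset.sum_add_distrib]
    have h6 : ∑ k, (1 : Matrix (Fin m) (Fin m) ℝ) i k * B k i = B i i := by
      simp [Matrix.one_apply]
    rw [h6, ← Finset.sum_neg_distrib]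
    congr 1
    apply Finset.sum_congr rfl
    intro k _
    rw [hrel]
    ring
  rw [e5] at hnn
  change ∑ i, ∑ k, A i k * A k i ≤ ∑ i, B i i
  linarith

end Pool.Agent.Helper60.SL
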