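import Mathlib
import Pool.Agent.Helper65.SL.Base

/-!
# Project SL (MP_1eb6eb_gt), module ONF: orthonormal frames exist
-/

set_option maxSynthPendingDepth 3
set_option linter.unusedSectionVars false
set_option linter.deprecated false
set_option linter.unusedVariables false

namespace Pool.Agent.Helper60.SL

open Filter Topology
open scoped ContDiff Manifold
open Pool.Agent.Helper65.SL Pool.Agent.Helper23.Ric

section coordinates

variable {E : Type*} [NormedAddCommGroup E] [NormedSpace ℝ E] [FiniteDimensional ℝ E]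
variable {G : E → E →L[ℝ] E →L[ℝ] ℝ} {ψ : E → E} {z : E}

theorem onf {B : E →L[ℝ] E →L[ℝ] ℝ} (hs : ∀ v w, B v w = B w v) (hp : ∀ v, v ≠ 0 → 0 < B v v)
    {m : ℕ} (hm : m = Module.finrank ℝ E) : ∃ e : Fin m → E, IsOrtho B e := by
  subst hm
  let L : LinearMap.BilinForm ℝ E := LinearMap.mk₂ ℝ (fun v w => B v w)
    (fun a b c => by simp) (fun c a b => by simp) (fun a b c => by simp) (fun c a b => by simp)
  have hL : ∀ v w, L v w = B v w := fun v w => rfl
  have hsym : LinearMap.IsSymm L := ⟨fun v w => by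
    change B v w = B w v
    exact hs v w⟩
  obtain ⟨b, hb⟩ := LinearMap.BilinForm.exists_orthogonal_basis hsym
  refine ⟨fun i => (Real.sqrt (B (b i) (b i)))⁻¹ • b i, ?_⟩
  intro i j
  rw [map_smul, map_smul, ContinuousLinearMap.smul_apply, smul_eq_mul, smul_eq_mul]
  by_cases hij : i = j
  · subst hij
    have h0 := hp (b i) (b.ne_zero i)
    have h1 : 0 < Real.sqrt (B (b i) (b i)) := Real.sqrt_pos.2 h0
    have h2 : Real.sqrt (B (b i) (b i)) * Real.sqrt (B (b i) (b i)) = B (b i) (b i) :=
      Real.mul_self_sqrt h0.le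
    rw [if_pos rfl]
    field_simp
    rw [sq, h2]
  · have h3 : L (b i) (b j) = 0 := hb hij
    rw [hL] at h3
    rw [h3, if_neg hij]
    ring

end coordinates

end Pool.Agent.Helper60.SL
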